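import Pool.Agent.helper83.OD.Spec

/-!
# Project od, module JSY (symmetry of `JG`)
-/

set_option autoImplicit false

open Finset PowerSeries

noncomputable section

namespace Pool.Agent.OD

open Pool.Agent.EP

theorem JSY_filter (j M : ℕ) (hj : 0 < j) (hM : 0 < M) :
    (j.divisors.filter fun d : ℕ => (d : ℤ) ∣ (M : ℤ)) =
      M.divisors.filter fun d : ℕ => (d : ℤ) ∣ (j : ℤ) := by
  ext d
  simp only [Finset.mem_filter, Nat.mem_divisors, Int.natCast_dvd_natCast]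
  constructor
  · rintro ⟨⟨h1, -⟩, h2⟩
    exact ⟨⟨h2, hM.ne'⟩, h1⟩
  · rintro ⟨⟨h1, -⟩, h2⟩
    exact ⟨⟨h2, hj.ne'⟩, h1⟩

theorem JSY : JSY_stmt := by
  intro j M hj hM
  unfold JG
  rw [JSY_filter j M hj hM]
  refine Finset.sum_congr rfl fun d _ => ?_
  rw [mul_comm (j : ℤ) (M : ℤ)]

end Pool.Agent.OD
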